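import Pool.Agent.Run7.h798.Tate.GD

/-!
# MP_b23d8d_ag, Q1: the Gross–Deligne conjecture and singular cubic hypersurfaces over `ℚ`

`D` is the Betti and de Rham cohomology over `ℚ̄`: `H m X` is the cohomology of a smooth projective scheme over
`ℚ̄`, and for a scheme `X` over `ℚ` the object `h r j X` is the part of lowest weight of `H_{2j-r}` (homology with
closed supports), twisted by `-j`.
-/

set_option autoImplicit false

open CategoryTheory AlgebraicGeometry Pool.Agent.Y116.UV Pool.Agent.Q193.LT Pool.Agent.Q282.UK
  Pool.Agent.Q282.UZ Run7.h798.UV Run7.h798.Tate Run7.h798.Tate.GD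

namespace Pool.Agent.Results.MP_b23d8d_ag.CubicHypersurfaces

/-- **Theorem.** Let `N` be a natural number. The Gross–Deligne conjecture is true for all smooth projective
varieties over `ℚ̄` if and only if it is true for the admissible triples in the part of lowest weight of the
homology `H_{2j-r}` (twisted by `-j`), `j ≥ N`, of the singular cubic hypersurfaces `∑_l z_l f_l(x, y) = 0` over
`ℚ`, where every `f_l` is a sum of at most three monomials `x_i y_j`.

More precisely, the Betti and de Rham cohomology `H^m(X)` of every smooth projective `X` over `ℚ̄` is a direct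
factor of such an object. -/
theorem result (D : GD.Theory) (N : ℕ) : (D.GrossDeligne ↔ D.GrossDeligneCubic N) ∧ D.Embeds N :=
  ⟨GD.gd_iff D N, GD.embeds D N⟩

end Pool.Agent.Results.MP_b23d8d_ag.CubicHypersurfaces
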