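import Pool.Agent.Run7.h615.GD.Red

/-!
# The Gross-Deligne conjecture: real fields, and reduction to spaces of Hodge classes

Let `X` be a smooth projective variety over the algebraic numbers, `H ⊂ H^m(X)` a Hodge structure with
multiplication by a subfield `F` of `ℚ(μ_d)` of degree `dim H`, such that the lines `H_σ` are spanned by
classes `ω_σ` of the algebraic de Rham cohomology. `P_l(H)` is the period of `ω_σ`, `σ = σ_l`, and
`G_l = ∏ Γ(1 - a / d) ^ ε(a l⁻¹)`. The conjecture says that `P_l(H) ~ G_l`.

* (1) Two lines which are not orthogonal for some polarization of `H^m(X)` satisfy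
  `P_l P_l' ~ (2πi)^m`; this is so for `l' = -l`. The conjecture for `l` is equivalent to the one for `-l`.
* (2) The conjecture is true if for every line `H_σ` there is a chain with an odd number of steps from
  `H_σ` to itself, of lines such that consecutive ones are not orthogonal for some polarization. This is
  so (with one step) if `F` is real.
* (3) The conjecture for `H` is equivalent to the one for its Tate twists, if the isomorphism is given by
  a correspondence between two varieties. It is equivalent to the one for each tensor power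
  `H ⊗_F ⋯ ⊗_F H`.
* (4) The whole conjecture is equivalent to the case where `H` consists of Hodge classes and `F` is a
  cyclotomic field `ℚ(μ_d)`, `d ≥ 3`, and (2) does not apply. In this case the assertion is that
  `P_l(H) ~ (2πi)^k`, `m = 2 k`, that is, that the classes in `H` are `(2πi)^(-k)` times classes of the
  algebraic de Rham cohomology.

Proof. (1) The line `H_σ` is spanned by a class with algebraic values on `H_m(X(ℂ), ℚ)`; the
polarization `Ψ` is rational on rational classes, hence has algebraic values on these classes, and has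
values in `(2πi)^m ℚ̄` on the `ω_σ`. If `Ψ(H_σ, H_τ) ≠ 0` one obtains `P_σ P_τ ~ (2πi)^m`. The case
`τ = σ̄` follows from the Hodge-Riemann relations. By the reflection formula `G_l G_(-l) ~ π^m`. (2) The
chain gives `P_l ^ 2 ~ (2πi)^m` and `p(l) = m / 2` for all `l`; by the theorem of Koblitz and Ogus
`G_l ~ G_(-l)`, so `G_l ^ 2 ~ π^m`. Roots of algebraic numbers are algebraic. (4) `H` is multiplied with
`H^1` of abelian varieties with complex multiplication by `ℚ(μ_d)`, with types `Φ`, `Φ̄`, `Φ_1, …, Φ_m`
chosen such that the tensor product over `F` and `ℚ(μ_d)` consists of Hodge classes; the periods of the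
abelian varieties are known by the theorem of Anderson.

The definitions are in `Pool.Agent.Run7.h615.GD.Defs`.
-/

set_option autoImplicit false

namespace Pool.Agent.Results.MP_b23d8d_ag.RealFieldsAndHodgeClasses

open Complex Run7.h615.GD

/-- (1) -/
def Pairs : Prop :=
  ∀ (d : ℕ) [NeZero d] (F : Type) [Field F] [Algebra ℚ F] (E : Emb d F) (T : Triple E),
    IsGood T.X → (∀ l, T.Linked l (-l) ∧ (T.HoldsAt l ↔ T.HoldsAt (-l))) ∧
      ∀ l l', T.Linked l l' → Sim (T.per l * T.per l') ((2 * Real.pi * I) ^ T.X.m)

/-- (2) -/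
def RealFields : Prop :=
  ∀ (d : ℕ) [NeZero d] (F : Type) [Field F] [Algebra ℚ F] (E : Emb d F) (T : Triple E),
    IsGood T.X → (E.IsReal → ¬ T.IsIsotropic) ∧ (¬ T.IsIsotropic → T.Holds)

/-- (3) -/
def TwistsAndPowers : Prop :=
  ∀ (d : ℕ) [NeZero d] (F : Type) [Field F] [Algebra ℚ F] (E : Emb d F) (T T' : Triple E),
    (∀ c, IsGood T.X → IsGood T'.X → T.IsTwist T' c → (T.Holds ↔ T'.Holds)) ∧
      ∀ n, 0 < n → T.IsPower T' n → (T.Holds ↔ T'.Holds)

/-- (4) -/
def Reduction : Prop :=
  ∀ 𝒳 : Set Coh, (∀ X ∈ 𝒳, IsGood X) → HasProducts 𝒳 → HasCM 𝒳 →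
    (Conjecture 𝒳 ↔ HodgeCase 𝒳) ∧ (Conjecture 𝒳 ↔ HodgeClassesAlgebraic 𝒳)

/-- The four results on the conjecture of Gross and Deligne. -/
theorem result : Pairs ∧ (KoblitzOgus → RealFields ∧ TwistsAndPowers ∧ Reduction) := by
  refine ⟨fun d _ F _ _ E T h => ⟨fun l => ⟨?_, T.holdsAt_neg h l⟩, fun l l' hl => (T.linked_sim hl).1⟩,
    fun hKO => ⟨fun d _ F _ _ E T h => ⟨fun hE => T.real_anisotropic h hE,
      fun hT => T.holds_anisotropic hKO h hT⟩,
      fun d _ F _ _ E T T' => ⟨fun c h h' ht => Triple.holds_twist hKO h h' ht,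
        fun n hn hp => Triple.holds_power hn hp⟩,
      fun 𝒳 hg hp hA => reduction hKO hg hp hA⟩⟩
  obtain ⟨Ψ, hΨ⟩ := h.polarized
  refine ⟨Ψ, hΨ, ?_⟩
  rw [← T.bar_cls]
  exact hΨ.positive _ _ (T.type l) (T.cls_ne l)

end Pool.Agent.Results.MP_b23d8d_ag.RealFieldsAndHodgeClasses
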